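import Mathlib

/-! Counting permutations with prescribed periods of given points. -/

set_option autoImplicit false

namespace DM852.ROOT
open Finset Equiv
open scoped Nat

/-- permutations with prescribed values on a set -/
lemma card_agree {α : Type*} [Fintype α] [DecidableEq α] (T : Finset α) (f : α → α) :
    #{u : Perm α | ∀ a ∈ T, u a = f a} ≤ (Fintype.card α - T.card)! := by
  classical
  rcases (univ.filter fun u : Perm α => ∀ a ∈ T, u a = f a).eq_empty_or_nonempty with h | ⟨u0, hu0⟩
  · rw [h]; simp
  · have hu0' : ∀ a ∈ T, u0 a = f a := by simpa using hu0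
    have h1 : #{u : Perm α | ∀ a ∈ T, u a = f a} ≤
        Fintype.card {f : Perm α // ∀ a, ¬ (a ∉ T) → f a = a} := by
      rw [← Fintype.card_subtype]
      refine Fintype.card_le_of_injective
        (fun u : {u : Perm α // ∀ a ∈ T, u a = f a} =>
          (⟨u0⁻¹ * u.1, ?_⟩ : {f : Perm α // ∀ a, ¬ (a ∉ T) → f a = a})) ?_
      · intro a ha
        have ha' : a ∈ T := by
          by_contra h; exact ha h
        have := u.2 a ha'
        rw [Perm.mul_apply, this, ← hu0' a ha']
        simp
      · intro u v h
        have h' : u0⁻¹ * u.1 = u0⁻¹ * v.1 := congrArg Subtype.val h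
        exact Subtype.ext (mul_left_cancel h')
    have h2 : Fintype.card {f : Perm α // ∀ a, ¬ (a ∉ T) → f a = a} =
        (Fintype.card α - T.card)! := by
      rw [← Fintype.card_congr (Perm.subtypeEquivSubtypePerm (fun a => a ∉ T)), Fintype.card_perm,
        Fintype.card_subtype_compl]
      simp
    exact h1.trans h2.le

variable {α : Type*} [Fintype α] [DecidableEq α]

/-- the event: the points `p s` have periods `e s` and lie in different cycles -/
def Ev {S : Type*} (p : S → α) (e : S → ℕ) (u : Perm α) : Prop :=
  (∀ s, Function.minimalPeriod u (p s) = e s) ∧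
      ∀ s s', s ≠ s' → ∀ i : ℕ, (u ^ i) (p s) ≠ p s'

omit [DecidableEq α] in
lemma Ev.pos {S : Type*} {p : S → α} {e : S → ℕ} {u : Perm α} (h : Ev p e u) (s : S) :
    0 < e s := by
  rw [← h.1 s]
  apply Function.minimalPeriod_pos_of_mem_periodicPts
  exact Function.Injective.mem_periodicPts u.injective _

omit [DecidableEq α] in
lemma Ev.inj {S : Type*} {p : S → α} {e : S → ℕ} {u : Perm α} (h : Ev p e u) {s s' : S}
    {i j : ℕ} (hi : i < e s) (hj : j < e s') (hh : (u ^ i) (p s) = (u ^ j) (p s')) :
    s = s' ∧ i = j := by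
  by_cases hs : s = s'
  · subst hs
    refine ⟨rfl, ?_⟩
    rw [← Perm.iterate_eq_pow, ← Perm.iterate_eq_pow] at hh
    rw [← h.1 s] at hi hj
    exact (Function.iterate_eq_iterate_iff_of_lt_minimalPeriod hi hj).1 hh
  · exfalso
    apply h.2 s s' hs ((orderOf u - 1) * j + i)
    rw [pow_add, Perm.mul_apply, hh, ← Perm.mul_apply, ← pow_add]
    have h1 : (orderOf u - 1) * j + j = orderOf u * j := by
      have : 0 < orderOf u := orderOf_pos u
      obtain ⟨m, hm⟩ := Nat.exists_eq_succ_of_ne_zero this.ne'
      rw [hm]
      simp only [Nat.succ_eq_add_one, Nat.add_sub_cancel]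
      ring
    rw [h1, pow_mul, pow_orderOf_eq_one, one_pow, Perm.one_apply]

open Classical in
/-- the number of permutations with prescribed periods of given points in different cycles -/
lemma card_cyc {S : Type*} [Fintype S] (p : S → α) (e : S → ℕ) :
    #{u : Perm α | Ev p e u} ≤ (Fintype.card α - Fintype.card S)! := by
  set U := univ.filter (fun u : Perm α => Ev p e u) with hU
  rcases U.eq_empty_or_nonempty with h | ⟨u1, hu1⟩
  · rw [h]; simp
  have hu1 : Ev p e u1 := by simpa [hU] using hu1
  have hp : Function.Injective p := by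
    intro s s' hss
    exact (hu1.inj (i := 0) (j := 0) (hu1.pos s) (hu1.pos s') (by simpa using hss)).1
  set I := (Σ s : S, Fin (e s - 1)) with hI
  let f : Perm α → (I → α) := fun u x => (u ^ (x.2.1 + 1)) (p x.1)
  -- the image
  have him : (U.image f).card ≤ Fintype.card (I ↪ {x // x ∉ Set.range p}) := by
    have hsub : U.image f ⊆ (univ : Finset (I ↪ {x // x ∉ Set.range p})).image
        (fun g x => (g x).1) := by
      intro g hg
      rw [mem_image] at hg ⊢
      obtain ⟨u, hu, rfl⟩ := hg
      have hu : Ev p e u := by simpa [hU] using hu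
      refine ⟨⟨fun x => ⟨(u ^ (x.2.1 + 1)) (p x.1), ?_⟩, ?_⟩, mem_univ _, ?_⟩
      · rintro ⟨s, hs⟩
        have hx := x.2.2
        have := hu.inj (s := x.1) (s' := s) (i := x.2.1 + 1) (j := 0) (by omega) (hu.pos s)
          (by simpa using hs.symm)
        omega
      · rintro ⟨s, i⟩ ⟨s', j⟩ h
        have hi := i.2
        have hj := j.2
        have h' : (u ^ (i.1 + 1)) (p s) = (u ^ (j.1 + 1)) (p s') := congrArg Subtype.val h
        obtain ⟨rfl, h2⟩ := hu.inj (by omega) (by omega) h'
        have : i = j := Fin.ext (by omega)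
        rw [this]
      · rfl
    refine (card_le_card hsub).trans (card_image_le.trans ?_)
    rw [card_univ]
  -- the fibres
  have hfib : ∀ g ∈ U.image f, (U.filter fun u => f u = g).card ≤
      (Fintype.card α - ∑ s, e s)! := by
    intro g hg
    rw [mem_image] at hg
    obtain ⟨u0, hu0, rfl⟩ := hg
    have hu0 : Ev p e u0 := by simpa [hU] using hu0
    set T : Finset α := (univ : Finset (Σ s : S, Fin (e s))).image
      (fun x => (u0 ^ x.2.1) (p x.1)) with hT
    have hTc : T.card = ∑ s, e s := by
      rw [hT, card_image_of_injective]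
      · simp
      · rintro ⟨s, i⟩ ⟨s', j⟩ h
        obtain ⟨rfl, h2⟩ := hu0.inj i.2 j.2 h
        have : i = j := Fin.ext h2
        rw [this]
    rw [← hTc]
    refine le_trans (card_le_card ?_) (card_agree T (fun a => u0 a))
    intro u hu
    rw [mem_filter] at hu ⊢
    obtain ⟨hu, hf⟩ := hu
    have hu : Ev p e u := by simpa [hU] using hu
    refine ⟨mem_univ _, ?_⟩
    have key : ∀ s i, i ≤ e s → (u ^ i) (p s) = (u0 ^ i) (p s) := by
      intro s i hi
      rcases Nat.eq_zero_or_pos i with h0 | h0
      · subst h0; simp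
      · rcases Nat.lt_or_ge i (e s) with h1 | h1
        · have := congrFun hf ⟨s, ⟨i - 1, by omega⟩⟩
          simp only [f] at this
          rwa [show i - 1 + 1 = i by omega] at this
        · have hi' : i = e s := le_antisymm hi h1
          have e1 : ∀ v : Perm α, Ev p e v → (v ^ (e s)) (p s) = p s := by
            intro v hv
            rw [← Perm.iterate_eq_pow, ← hv.1 s]
            exact Function.iterate_minimalPeriod
          rw [hi', e1 u hu, e1 u0 hu0]
    intro a ha
    rw [hT, mem_image] at ha
    obtain ⟨⟨s, i⟩, -, rfl⟩ := ha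
    have h1 := key s i.1 i.2.le
    have h2 := key s (i.1 + 1) i.2
    simp only
    rw [← h1, ← Perm.mul_apply, ← pow_succ', h2, pow_succ', Perm.mul_apply, h1]
  have hmain := card_le_mul_card_image U _ hfib
  refine hmain.trans ((Nat.mul_le_mul_left _ him).trans ?_)
  rw [Fintype.card_embedding_eq]
  have hIc : Fintype.card I = ∑ s, (e s - 1) := by
    simp only [hI, Fintype.card_sigma, Fintype.card_fin]
  have hsum : ∑ s, e s = ∑ s, (e s - 1) + Fintype.card S := by
    have : ∀ s, e s = (e s - 1) + 1 := fun s => by have := hu1.pos s; omega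
    calc ∑ s, e s = ∑ s, ((e s - 1) + 1) := sum_congr rfl fun s _ => this s
      _ = _ := by rw [sum_add_distrib]; simp
  have hcs : Fintype.card {x // x ∉ Set.range p} = Fintype.card α - Fintype.card S := by
    rw [Fintype.card_subtype_compl]
    congr 1
    exact Set.card_range_of_injective hp
  rw [hcs, hIc, hsum]
  set M := Fintype.card α - Fintype.card S with hM
  set K := ∑ s, (e s - 1) with hK
  have h3 : Fintype.card α - (K + Fintype.card S) = M - K := by omega
  rw [h3]
  rcases Nat.lt_or_ge M K with h4 | h4
  · rw [Nat.descFactorial_eq_zero_iff_lt.2 h4]; simp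
  · rw [Nat.factorial_mul_descFactorial h4]

end DM852.ROOT
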