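import Pool.Agent.H852R2.DM.Defs
import Pool.Agent.H896R2.DM.Cyc

/-! Task 62 of the project DM: POWFIX and ROOTBAD. -/

namespace DM852
open RC14 RC852 Finset Filter Equiv

namespace ROOT
open scoped Nat

lemma card_per1 {α : Type*} [Fintype α] [DecidableEq α] (p : α) (e : ℕ) :
    #{u : Perm α | Function.minimalPeriod u p = e} ≤ (Fintype.card α - 1)! := by
  classical
  have := card_cyc (S := Unit) (fun _ => p) (fun _ => e)
  rw [Fintype.card_unit] at this
  refine le_trans (card_le_card ?_) this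
  intro u hu
  rw [mem_filter] at hu ⊢
  refine ⟨mem_univ _, fun _ => hu.2, fun s s' hs => absurd (Subsingleton.elim s s') hs⟩

open Classical in
lemma card_per2 {α : Type*} [Fintype α] [DecidableEq α] (p q : α) (e e' : ℕ) :
    #{u : Perm α | Function.minimalPeriod u p = e ∧ Function.minimalPeriod u q = e' ∧
      ∀ i : ℕ, (u ^ i) p ≠ q} ≤ (Fintype.card α - 2)! := by
  have := card_cyc (S := Bool) (fun b => if b then p else q) (fun b => if b then e else e')
  rw [Fintype.card_bool] at this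
  refine le_trans (card_le_card ?_) this
  intro u hu
  rw [mem_filter] at hu ⊢
  obtain ⟨-, h1, h2, h3⟩ := hu
  refine ⟨mem_univ _, ?_, ?_⟩
  · intro b
    cases b
    · simpa using h2
    · simpa using h1
  · intro b b' hb i
    cases b <;> cases b'
    · exact absurd rfl hb
    · simp only [Bool.false_eq_true, if_false, if_true]
      intro h4
      apply h3 ((orderOf u - 1) * i)
      rw [← h4, ← Perm.mul_apply, ← pow_add]
      have h5 : (orderOf u - 1) * i + i = orderOf u * i := by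
        have : 0 < orderOf u := orderOf_pos u
        obtain ⟨m, hm⟩ := Nat.exists_eq_succ_of_ne_zero this.ne'
        rw [hm]
        simp only [Nat.succ_eq_add_one, Nat.add_sub_cancel]
        ring
      rw [h5, pow_mul, pow_orderOf_eq_one, one_pow, Perm.one_apply]
    · simpa using h3 i
    · exact absurd rfl hb

lemma per_dvd {α : Type*} {u : Perm α} {p : α} {d : ℕ} (h : (u ^ d) p = p) :
    Function.minimalPeriod u p ∣ d := by
  apply Function.IsPeriodicPt.minimalPeriod_dvd
  rw [Function.IsPeriodicPt, Function.IsFixedPt, Perm.iterate_eq_pow]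
  exact h

lemma sum_nfix (n d : ℕ) (hd : 1 ≤ d) : ∑ u : Perm (Fin n), nfix (u ^ d) ≤ d * n ! := by
  rcases Nat.eq_zero_or_pos n with h0 | h0
  · subst h0
    simp [nfix]
  have h1 : ∑ u : Perm (Fin n), nfix (u ^ d) =
      ∑ p : Fin n, #{u : Perm (Fin n) | (u ^ d) p = p} := by
    simp only [nfix, card_filter]
    exact sum_comm
  rw [h1]
  have h2 : ∀ p : Fin n, #{u : Perm (Fin n) | (u ^ d) p = p} ≤ d * (n - 1)! := by
    intro p
    have h3 : (univ.filter fun u : Perm (Fin n) => (u ^ d) p = p) ⊆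
        (d.divisors).biUnion (fun e => univ.filter fun u : Perm (Fin n) =>
          Function.minimalPeriod u p = e) := by
      intro u hu
      rw [mem_filter] at hu
      rw [mem_biUnion]
      refine ⟨Function.minimalPeriod u p, ?_, by simp⟩
      rw [Nat.mem_divisors]
      exact ⟨per_dvd hu.2, by omega⟩
    refine (card_le_card h3).trans (card_biUnion_le.trans ?_)
    calc _ ≤ ∑ e ∈ d.divisors, (n - 1)! := sum_le_sum fun e _ => by simpa using card_per1 p e
      _ = d.divisors.card * (n - 1)! := by simp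
      _ ≤ d * (n - 1)! := Nat.mul_le_mul_right _ (Nat.card_divisors_le_self d)
  calc _ ≤ ∑ p : Fin n, d * (n - 1)! := sum_le_sum fun p _ => h2 p
    _ = d * (n * (n - 1)!) := by simp; ring
    _ = d * n ! := by rw [Nat.mul_factorial_pred h0.ne']

lemma markov_alt (n : ℕ) (hn : 2 ≤ n) (f : Perm (Fin n) → ℕ) (P : Alt n → Prop) (t : ℝ)
    (ht : 0 < t) (M : ℝ) (hP : ∀ y : Alt n, P y → t ≤ f y)
    (hM : ((∑ u : Perm (Fin n), f u : ℕ) : ℝ) ≤ M * n !) :
    (Nat.card {y : Alt n // P y} : ℝ) ≤ 2 * M / t * Fintype.card (Alt n) := by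
  classical
  have hc : (n ! : ℝ) = 2 * Fintype.card (Alt n) := by
    have : Nontrivial (Fin n) := Fin.nontrivial_iff_two_le.2 hn
    have h := two_mul_nat_card_alternatingGroup (α := Fin n)
    rw [Nat.card_eq_fintype_card, Nat.card_eq_fintype_card, Fintype.card_perm,
      Fintype.card_fin] at h
    rw [← h]
    push_cast
    ring
  have h1 : ∑ y : Alt n, f y ≤ ∑ u : Perm (Fin n), f u := by
    have e1 : ∑ y : Alt n, f y = ∑ u ∈ (univ : Finset (Alt n)).map
        (Function.Embedding.subtype _), f u := by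
      rw [sum_map]
      rfl
    rw [e1]
    exact sum_le_sum_of_subset (subset_univ _)
  have h2 : (Nat.card {y : Alt n // P y} : ℝ) * t ≤ ∑ y : Alt n, (f y : ℝ) := by
    rw [Nat.card_eq_fintype_card, Fintype.card_subtype]
    calc ((univ.filter P).card : ℝ) * t = ∑ y ∈ univ.filter P, t := by
          rw [sum_const, nsmul_eq_mul]
      _ ≤ ∑ y ∈ univ.filter P, (f y : ℝ) := sum_le_sum fun y hy => hP y (mem_filter.1 hy).2
      _ ≤ ∑ y : Alt n, (f y : ℝ) :=
          sum_le_sum_of_subset_of_nonneg (subset_univ _) fun _ _ _ => Nat.cast_nonneg _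
  have h3 : (∑ y : Alt n, (f y : ℝ)) ≤ ((∑ u : Perm (Fin n), f u : ℕ) : ℝ) := by
    exact_mod_cast h1
  have h4 := h2.trans (h3.trans hM)
  rw [hc] at h4
  rw [div_mul_eq_mul_div, le_div_iff₀ ht]
  linarith

end ROOT

open ROOT

/-- powers of a random permutation have few fixed points -/
theorem POWFIX (d : ℕ) (hd : 1 ≤ d) (η : ℝ) (hη : 0 < η) : ∀ᶠ n : ℕ in atTop,
    (Nat.card {y : Alt n // η * n < nfix ((y : Perm (Fin n)) ^ d)} : ℝ) ≤
      2 * d / (η * n) * Fintype.card (Alt n) := by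
  filter_upwards [eventually_ge_atTop 2] with n hn
  have hn0 : (0 : ℝ) < n := by
    have : 0 < n := by omega
    exact_mod_cast this
  refine markov_alt n hn (fun u => nfix (u ^ d)) _ (η * n) (by positivity) d
    (fun y hy => hy.le) ?_
  exact_mod_cast sum_nfix n d hd

/-- some power of `u` with exponent in the window has support of size between `a n / 4` and
`a n` -/
def RootOK (a : ℝ) {n : ℕ} (u : Perm (Fin n)) : Prop :=
  ∃ l : ℕ, InW a n l ∧ a / 4 * n ≤ ((u ^ l).support.card : ℝ) ∧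
    ((u ^ l).support.card : ℝ) ≤ a * n

namespace ROOT
open scoped Nat

/-- the number of divisors -/
lemma tau_le (l : ℕ) : (l.divisors.card : ℝ) ≤ 2 * Real.sqrt l := by
  classical
  have h1 : l.divisors ⊆ (Finset.Icc 1 (Nat.sqrt l)) ∪ (Finset.Icc 1 (Nat.sqrt l)).image
      (fun d => l / d) := by
    intro d hd
    rw [Nat.mem_divisors] at hd
    obtain ⟨hd, hl⟩ := hd
    rw [mem_union]
    have hdpos : 0 < d := Nat.pos_of_dvd_of_pos hd (Nat.pos_of_ne_zero hl)
    by_cases h : d ≤ Nat.sqrt l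
    · left
      rw [Finset.mem_Icc]
      exact ⟨hdpos, h⟩
    · right
      rw [mem_image]
      obtain ⟨m, hm⟩ := hd
      have hmpos : 0 < m := by
        rcases Nat.eq_zero_or_pos m with h0 | h0
        · subst h0; simp at hm; exact absurd hm hl
        · exact h0
      refine ⟨m, ?_, ?_⟩
      · rw [Finset.mem_Icc]
        refine ⟨hmpos, ?_⟩
        by_contra h2
        push Not at h h2
        have h3 : (Nat.sqrt l + 1) * (Nat.sqrt l + 1) ≤ d * m := Nat.mul_le_mul h h2
        have h4 := Nat.lt_succ_sqrt l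
        rw [← hm] at h3
        simp only [Nat.succ_eq_add_one] at h4
        omega
      · rw [hm, Nat.mul_div_cancel _ hmpos]
  have h2 : l.divisors.card ≤ 2 * Nat.sqrt l := by
    refine (card_le_card h1).trans ((card_union_le _ _).trans ?_)
    have h3 : ((Finset.Icc 1 (Nat.sqrt l)).image (fun d => l / d)).card ≤ Nat.sqrt l :=
      card_image_le.trans (by simp)
    have h4 : (Finset.Icc 1 (Nat.sqrt l)).card = Nat.sqrt l := by simp
    omega
  calc (l.divisors.card : ℝ) ≤ ((2 * Nat.sqrt l : ℕ) : ℝ) := by exact_mod_cast h2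
    _ = 2 * (Nat.sqrt l : ℝ) := by push_cast; ring
    _ ≤ 2 * Real.sqrt l := by
        have := Real.nat_sqrt_le_real_sqrt (a := l)
        linarith

open Classical in
/-- pairs `(p, q)`: `p` in a cycle of length `l` in the window, `q` in another cycle with length
dividing `l` -/
noncomputable def NN (a : ℝ) {n : ℕ} (u : Perm (Fin n)) : ℕ :=
  #{x : Fin n × Fin n | InW a n (Function.minimalPeriod u x.1) ∧
    (u ^ (Function.minimalPeriod u x.1)) x.2 = x.2 ∧ ∀ i : ℕ, (u ^ i) x.1 ≠ x.2}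

lemma InW.le {a : ℝ} (ha : 0 < a) {n l : ℕ} (h : InW a n l) : l ≤ n := by
  have h2 := h.2
  have h3 : (0 : ℝ) ≤ n := Nat.cast_nonneg n
  have : (l : ℝ) ≤ n := by nlinarith
  exact_mod_cast this

open Classical in
lemma sum_NN (a : ℝ) (ha : 0 < a) (n : ℕ) (hn : 2 ≤ n) :
    ((∑ u : Perm (Fin n), NN a u : ℕ) : ℝ) ≤ 4 * n * Real.sqrt n * n ! := by
  have h1 : ∑ u : Perm (Fin n), NN a u = ∑ x : Fin n × Fin n,
      #{u : Perm (Fin n) | InW a n (Function.minimalPeriod u x.1) ∧
    (u ^ (Function.minimalPeriod u x.1)) x.2 = x.2 ∧ ∀ i : ℕ, (u ^ i) x.1 ≠ x.2} := by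
    simp only [NN, card_filter]
    exact sum_comm
  have h2 : ∀ x : Fin n × Fin n,
      ((#{u : Perm (Fin n) | InW a n (Function.minimalPeriod u x.1) ∧
    (u ^ (Function.minimalPeriod u x.1)) x.2 = x.2 ∧ ∀ i : ℕ, (u ^ i) x.1 ≠ x.2} : ℕ) : ℝ) ≤
      2 * n * Real.sqrt n * (n - 2)! := by
    intro x
    have h3 : (univ.filter fun u : Perm (Fin n) => InW a n (Function.minimalPeriod u x.1) ∧
        (u ^ (Function.minimalPeriod u x.1)) x.2 = x.2 ∧ ∀ i : ℕ, (u ^ i) x.1 ≠ x.2) ⊆
        (Finset.Icc 1 n).biUnion (fun l => l.divisors.biUnion fun e =>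
          univ.filter fun u : Perm (Fin n) => Function.minimalPeriod u x.1 = l ∧
            Function.minimalPeriod u x.2 = e ∧ ∀ i : ℕ, (u ^ i) x.1 ≠ x.2) := by
      intro u hu
      rw [mem_filter] at hu
      obtain ⟨-, h4, h5, h6⟩ := hu
      have h7 : 0 < Function.minimalPeriod u x.1 := by
        apply Function.minimalPeriod_pos_of_mem_periodicPts
        exact Function.Injective.mem_periodicPts u.injective _
      rw [mem_biUnion]
      refine ⟨Function.minimalPeriod u x.1, ?_, ?_⟩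
      · rw [Finset.mem_Icc]
        exact ⟨h7, InW.le ha h4⟩
      rw [mem_biUnion]
      refine ⟨Function.minimalPeriod u x.2, ?_, ?_⟩
      · rw [Nat.mem_divisors]
        exact ⟨per_dvd h5, h7.ne'⟩
      · rw [mem_filter]
        exact ⟨mem_univ _, rfl, rfl, h6⟩
    have h4 : #{u : Perm (Fin n) | InW a n (Function.minimalPeriod u x.1) ∧
        (u ^ (Function.minimalPeriod u x.1)) x.2 = x.2 ∧ ∀ i : ℕ, (u ^ i) x.1 ≠ x.2} ≤
        ∑ l ∈ Finset.Icc 1 n, ∑ e ∈ l.divisors, (n - 2)! := by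
      refine (card_le_card h3).trans (card_biUnion_le.trans ?_)
      refine sum_le_sum fun l _ => ?_
      refine card_biUnion_le.trans ?_
      refine sum_le_sum fun e _ => ?_
      have := card_per2 x.1 x.2 l e
      rw [Fintype.card_fin] at this
      refine le_trans (card_le_card ?_) this
      intro u hu
      rw [mem_filter] at hu ⊢
      exact ⟨mem_univ _, hu.2⟩
    have h5 : ((∑ l ∈ Finset.Icc 1 n, ∑ e ∈ l.divisors, (n - 2)! : ℕ) : ℝ) ≤
        2 * n * Real.sqrt n * (n - 2)! := by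
      push_cast
      calc (∑ l ∈ Finset.Icc 1 n, ∑ e ∈ l.divisors, ((n - 2)! : ℝ))
          ≤ ∑ l ∈ Finset.Icc 1 n, (2 * Real.sqrt n) * (n - 2)! := by
            refine sum_le_sum fun l hl => ?_
            rw [sum_const, nsmul_eq_mul]
            refine mul_le_mul_of_nonneg_right ?_ (Nat.cast_nonneg _)
            refine (tau_le l).trans ?_
            have : Real.sqrt l ≤ Real.sqrt n := by
              apply Real.sqrt_le_sqrt
              exact_mod_cast (Finset.mem_Icc.1 hl).2
            linarith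
        _ = 2 * n * Real.sqrt n * (n - 2)! := by
            rw [sum_const, nsmul_eq_mul, Nat.card_Icc]
            simp only [Nat.add_sub_cancel]
            ring
    exact le_trans (by exact_mod_cast h4) h5
  rw [h1]
  push_cast
  have h6 : (∑ x : Fin n × Fin n, ((#{u : Perm (Fin n) | InW a n (Function.minimalPeriod u x.1) ∧
    (u ^ (Function.minimalPeriod u x.1)) x.2 = x.2 ∧ ∀ i : ℕ, (u ^ i) x.1 ≠ x.2} : ℕ) : ℝ)) ≤
      ∑ x : Fin n × Fin n, 2 * n * Real.sqrt n * (n - 2)! := sum_le_sum fun x _ => h2 x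
  refine h6.trans ?_
  rw [sum_const, nsmul_eq_mul, card_univ, Fintype.card_prod, Fintype.card_fin]
  obtain ⟨m, rfl⟩ : ∃ m, n = m + 2 := ⟨n - 2, by omega⟩
  have h7 : ((m + 2)! : ℝ) = (m + 2) * (m + 1) * m ! := by
    rw [Nat.factorial_succ, Nat.factorial_succ]
    push_cast
    ring
  rw [h7]
  simp only [Nat.add_sub_cancel]
  push_cast
  have h8 : (0 : ℝ) ≤ Real.sqrt (m + 2) := Real.sqrt_nonneg _
  have h9 : (0 : ℝ) < m ! := by exact_mod_cast Nat.factorial_pos m
  have h10 : (0 : ℝ) ≤ m := Nat.cast_nonneg m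
  have h11 : (0 : ℝ) ≤ Real.sqrt (m + 2) * m ! := by positivity
  have h12 : ((m : ℝ) + 2) * (m + 2) * (2 * (m + 2)) ≤ 4 * (m + 2) * ((m + 2) * (m + 1)) := by
    nlinarith [mul_nonneg h10 h10, mul_nonneg h10 (mul_nonneg h10 h10)]
  calc ((m : ℝ) + 2) * (m + 2) * (2 * (m + 2) * Real.sqrt (m + 2) * m !)
      = (((m : ℝ) + 2) * (m + 2) * (2 * (m + 2))) * (Real.sqrt (m + 2) * m !) := by ring
    _ ≤ (4 * (m + 2) * ((m + 2) * (m + 1))) * (Real.sqrt (m + 2) * m !) :=
        mul_le_mul_of_nonneg_right h12 h11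
    _ = 4 * (m + 2) * Real.sqrt (m + 2) * ((m + 2) * (m + 1) * m !) := by ring

lemma per_of_cyc {n : ℕ} {u c : Perm (Fin n)} (hc : c ∈ u.cycleFactorsFinset) {p : Fin n}
    (hp : p ∈ c.support) : Function.minimalPeriod u p = c.support.card := by
  have h1 : u.IsCycleOn c.support := by
    exact Perm.isCycleOn_support_of_mem_cycleFactorsFinset hc
  apply Nat.dvd_antisymm
  · apply per_dvd
    exact (h1.pow_apply_eq hp).2 dvd_rfl
  · rw [← h1.pow_apply_eq hp, ← Perm.iterate_eq_pow]
    exact Function.iterate_minimalPeriod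

open Classical in
lemma NN_ge (a : ℝ) (ha : 0 < a) (ha1 : a ≤ 1 / 4) {n : ℕ} (u : Perm (Fin n)) (h1 : LC a u)
    (h2 : ¬ RootOK a u) : 3 * a / 16 * (n : ℝ) ^ 2 ≤ NN a u := by
  obtain ⟨c, hc, hW⟩ := h1
  set l := c.support.card with hl
  have hon : u.IsCycleOn c.support := Perm.isCycleOn_support_of_mem_cycleFactorsFinset hc
  have hfix : ∀ p ∈ c.support, (u ^ l) p = p := fun p hp => (hon.pow_apply_eq hp).2 dvd_rfl
  have hn0 : (0 : ℝ) ≤ n := Nat.cast_nonneg n
  have hcompl : c.supportᶜ.card = n - l := by rw [Finset.card_compl, Fintype.card_fin]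
  have hln : l ≤ n := InW.le ha hW
  have hsub : (u ^ l).support ⊆ c.supportᶜ := by
    intro x hx
    rw [mem_compl]
    intro hx2
    rw [Perm.mem_support] at hx
    exact hx (hfix x hx2)
  have hle : ((u ^ l).support.card : ℝ) ≤ a * n := by
    have h3 : (u ^ l).support.card ≤ n - l := by
      rw [← hcompl]; exact card_le_card hsub
    have h4 : ((u ^ l).support.card : ℝ) ≤ ((n - l : ℕ) : ℝ) := by exact_mod_cast h3
    rw [Nat.cast_sub hln] at h4
    have := hW.1
    linarith
  have hlt : ((u ^ l).support.card : ℝ) < a / 4 * n := by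
    by_contra h3
    push Not at h3
    exact h2 ⟨l, hW, h3, hle⟩
  set Q : Finset (Fin n) := c.supportᶜ \ (u ^ l).support with hQ
  have hQc : a / 4 * n ≤ (Q.card : ℝ) := by
    have h3 : Q.card + (u ^ l).support.card = n - l := by
      rw [← hcompl, hQ]
      exact card_sdiff_add_card_eq_card hsub
    have h4 : (Q.card : ℝ) + ((u ^ l).support.card : ℝ) = ((n - l : ℕ) : ℝ) := by
      exact_mod_cast h3
    rw [Nat.cast_sub hln] at h4
    have := hW.2
    linarith
  have hsub2 : c.support ×ˢ Q ⊆ (univ.filter fun x : Fin n × Fin n =>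
      InW a n (Function.minimalPeriod u x.1) ∧
    (u ^ (Function.minimalPeriod u x.1)) x.2 = x.2 ∧ ∀ i : ℕ, (u ^ i) x.1 ≠ x.2) := by
    rintro ⟨p, q⟩ hpq
    rw [mem_product] at hpq
    obtain ⟨hp, hq⟩ := hpq
    simp only at hp hq
    rw [hQ, Finset.mem_sdiff, Finset.mem_compl] at hq
    have hq2 : (u ^ l) q = q := Perm.notMem_support.1 hq.2
    rw [mem_filter]
    refine ⟨mem_univ _, ?_⟩
    simp only
    rw [per_of_cyc hc hp]
    refine ⟨hW, hq2, ?_⟩
    intro i hi
    apply hq.1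
    rw [← hi]
    have : ((u ^ i) p) ∈ (c.support : Set (Fin n)) := (hon.1.perm_pow i).mapsTo hp
    exact_mod_cast this
  have h3 : ((c.support ×ˢ Q).card : ℝ) ≤ NN a u := by
    exact_mod_cast card_le_card hsub2
  rw [card_product] at h3
  push_cast at h3
  refine le_trans ?_ h3
  have h4 : (1 - a) * n ≤ (l : ℝ) := hW.1
  have h5 : 3 / 4 * (n : ℝ) ≤ l := by nlinarith
  calc 3 * a / 16 * (n : ℝ) ^ 2 = (3 / 4 * n) * (a / 4 * n) := by ring
    _ ≤ (l : ℝ) * Q.card := mul_le_mul h5 hQc (by positivity) (Nat.cast_nonneg _)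

end ROOT

theorem ROOTBAD (a : ℝ) (ha : 0 < a) (ha1 : a ≤ 1 / 4) : ∃ C : ℝ, 0 < C ∧
    ∀ᶠ n : ℕ in atTop,
      (Nat.card {u : Alt n // LC a (u : Perm (Fin n)) ∧ ¬ RootOK a (u : Perm (Fin n))} : ℝ) ≤
        C / Real.sqrt n * Fintype.card (Alt n) := by
  refine ⟨128 / (3 * a), by positivity, ?_⟩
  filter_upwards [eventually_ge_atTop 2] with n hn
  have hn0 : (0 : ℝ) < n := by
    have : 0 < n := by omega
    exact_mod_cast this
  have h1 := markov_alt n hn (fun u => NN a u)
    (fun u : Alt n => LC a (u : Perm (Fin n)) ∧ ¬ RootOK a (u : Perm (Fin n)))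
    (3 * a / 16 * (n : ℝ) ^ 2) (by positivity) (4 * n * Real.sqrt n)
    (fun y hy => NN_ge a ha ha1 _ hy.1 hy.2) (sum_NN a ha n hn)
  refine h1.trans (le_of_eq ?_)
  have h2 : Real.sqrt n * Real.sqrt n = n := Real.mul_self_sqrt hn0.le
  have h3 : 0 < Real.sqrt n := Real.sqrt_pos.2 hn0
  congr 1
  rw [div_div, div_eq_div_iff (by positivity) (by positivity)]
  linear_combination (24 * a * n) * h2

end DM852
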